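import Pool.Agent.N804.FGlue
import Pool.Agent.N804.FEnd
import Pool.Agent.N804.PCQ

/-!
# An upper bound for `F(α, T)` on windows of one length is equivalent to the conjecture

No hypothesis is assumed: zeros may be multiple or off the critical line, and the sums run over the
ordinates. The statements below are equivalent, for `T → ∞` and also along every sequence of
heights.
-/

open Filter Topology MeasureTheory

namespace Pool.Agent.Results.MP_103a5c_nt.FourierUpper

/-- multiplicity of `s` as a zero of the Riemann zeta function (order of vanishing at `s`) -/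
noncomputable def zmult (s : ℂ) : ℕ := analyticOrderNatAt riemannZeta s

/-- the nontrivial zeros of `ζ` -/
def ZZ : Set ℂ := {s : ℂ | riemannZeta s = 0 ∧ 0 < s.re ∧ s.re < 1}

/-- `N(T; α, β)`: the number of ordered pairs `(γ, γ')` of ordinates in `(0, T]`, counted with
multiplicity, with `2πα / log T ≤ γ - γ' ≤ 2πβ / log T` -/
noncomputable def N (T α β : ℝ) : ℕ :=
  ∑ᶠ p ∈ {p : ℂ × ℂ | p.1 ∈ ZZ ∧ p.2 ∈ ZZ ∧ 0 < p.1.im ∧ p.1.im ≤ T ∧ 0 < p.2.im ∧ p.2.im ≤ T ∧
    2 * Real.pi * α / Real.log T ≤ p.1.im - p.2.im ∧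
    p.1.im - p.2.im ≤ 2 * Real.pi * β / Real.log T}, zmult p.1 * zmult p.2

/-- the constant of the conjecture, `∫_α^β (1 - (sin πu / πu)²) du + δ(α, β)` -/
noncomputable def P (α β : ℝ) : ℝ :=
  (∫ u in α..β, (1 - (Real.sin (Real.pi * u) / (Real.pi * u)) ^ 2)) +
    if α ≤ 0 ∧ 0 ≤ β then 1 else 0

/-- Montgomery's function of the ordinates,
`F(α, T) = (T log T / 2π)⁻¹ ∑ cos(α (γ - γ') log T) w(γ - γ')` with `w(u) = 4 / (4 + u²)`, the sum
over all ordered pairs of ordinates in `(0, T]` of nontrivial zeros, counted with multiplicity -/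
noncomputable def F (α T : ℝ) : ℝ :=
  (∑ᶠ p ∈ {p : ℂ × ℂ | p.1 ∈ ZZ ∧ p.2 ∈ ZZ ∧ 0 < p.1.im ∧ p.1.im ≤ T ∧ 0 < p.2.im ∧ p.2.im ≤ T},
    (zmult p.1 : ℝ) * (zmult p.2 : ℝ) *
      (Real.cos (α * (p.1.im - p.2.im) * Real.log T) * (4 / (4 + (p.1.im - p.2.im) ^ 2)))) /
    (T * Real.log T / (2 * Real.pi))

/-- Let `l` be `T → ∞`, or more generally a countably generated filter contained in it (for
instance a sequence of heights tending to infinity), and let `0 < δ < 1`. The following are
equivalent. (1) The pair correlation conjecture along `l`. (2) For every (3) for almost every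
`b > 1 - δ`: `limsup ∫_b^{b+δ} F(α, T) dα ≤ ∫_b^{b+δ} min(α, 1) dα`. (4) For all `0 < b < c`,
`∫_b^c F(α, T) dα → ∫_b^c min(α, 1) dα`. -/
theorem result (l : Filter ℝ) (hl : l ≤ atTop) (hg : l.IsCountablyGenerated) (δ : ℝ) (hδ : 0 < δ)
    (hδ1 : δ < 1) : List.TFAE [
    ∀ α β : ℝ, α < β → Asymptotics.IsEquivalent l (fun T : ℝ => (N T α β : ℝ))
      (fun T : ℝ => P α β * (T / (2 * Real.pi) * Real.log T)),
    ∀ b : ℝ, 1 - δ < b → ∀ ε : ℝ, 0 < ε → ∀ᶠ T : ℝ in l,
      ∫ α in b..(b + δ), F α T ≤ (∫ α in b..(b + δ), min α 1) + ε,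
    ∀ᵐ b : ℝ, 1 - δ < b → ∀ ε : ℝ, 0 < ε → ∀ᶠ T : ℝ in l,
      ∫ α in b..(b + δ), F α T ≤ (∫ α in b..(b + δ), min α 1) + ε,
    ∀ b c : ℝ, 0 < b → b < c →
      Tendsto (fun T : ℝ => ∫ α in b..c, F α T) l (𝓝 (∫ α in b..c, min α 1))] := by
  have hpi := Real.pi_pos
  have hF : ∀ α T, F α T = N804.FT T α := fun α T => N804.ft_eq α T
  have hmin : ∀ b c : ℝ, 0 < b → b ≤ c → ∫ α in b..c, min α 1 = ∫ α in b..c, min |α| 1 := by
    intro b c hb hbc
    refine intervalIntegral.integral_congr fun α hα => ?_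
    rw [Set.uIcc_of_le hbc] at hα
    show min α 1 = min |α| 1
    rw [abs_of_pos (by linarith [hα.1])]
  have hQ : (∀ α β : ℝ, α < β → Asymptotics.IsEquivalent l (fun T : ℝ => (N T α β : ℝ))
      (fun T : ℝ => P α β * (T / (2 * Real.pi) * Real.log T))) ↔
      ∀ a : ℝ, 0 < a → Tendsto (fun T => N804.CF T a) l (𝓝 (N804.PP a)) := by
    rw [← N804.pc_iff hl]
    refine forall_congr' fun α => forall_congr' fun β => forall_congr' fun _ => ?_
    have e1 : (fun T : ℝ => (N T α β : ℝ)) =ᶠ[l] fun T => N804.NW T α β := by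
      filter_upwards [hl (eventually_gt_atTop 1)] with T hT
      exact N804.npair_eq hT α β
    have e2 : (fun T : ℝ => P α β * (T / (2 * Real.pi) * Real.log T)) =
        fun T => N804.PV' α β * N804.XX T := by
      funext T
      have e3 : P α β = N804.PV' α β := rfl
      rw [e3]
      unfold N804.XX
      ring
    rw [e2]
    exact ⟨fun h => h.congr_left e1, fun h => h.congr_left e1.symm⟩
  tfae_have 1 → 4 := by
    intro h b c hb hbc
    have h1 := hQ.1 h
    have h2 := N804.lower_half' hl (K := 0) (R := 1) (c := 1) one_pos fun a ha ε hε => by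
      have h3 := (tendsto_order.1 (h1 a (by linarith))).1 (N804.PP a - ε) (by linarith)
      filter_upwards [h3] with T hT
      rw [zero_mul, sub_zero]
      exact hT.le
    have h4 := N804.Q_to_F hl h1 h2.2 hb hbc
    rw [hmin b c hb hbc.le]
    simpa only [hF] using h4
  tfae_have 4 → 2 := by
    intro h b hb ε hε
    have h1 := (tendsto_order.1 (h b (b + δ) (by linarith) (by linarith))).2
      ((∫ α in b..(b + δ), min α 1) + ε) (by linarith)
    filter_upwards [h1] with T hT using hT.le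
  tfae_have 2 → 3 := fun h => ae_of_all _ h
  tfae_have 3 → 1 := by
    intro h
    refine hQ.2 fun a ha => ?_
    exact (N804.F_to_Q hl hδ hδ1 (by
      filter_upwards [h] with b hb hb1 ε hε
      have h2 := hb hb1 ε hε
      rw [hmin b (b + δ) (by linarith) (by linarith)] at h2
      simpa only [hF] using h2)).1 a ha
  tfae_finish

end Pool.Agent.Results.MP_103a5c_nt.FourierUpper
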