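import Pool.Agent.R304.UP.Main

/-!
# Pair correlation of zeta zeros and the values of zeta in the strip (under RH)

Montgomery's theorem evaluates, on the Riemann hypothesis, the sums of `r((γ - γ') log T / 2π)` over
pairs of zeros when the cosine transform `R` of `r` is supported in `(-1, 1)`. Here the pairs are
weighted by an arbitrary bounded functional, uniformly continuous for the supremum norm over a
compact set `K` of the strip `1/2 < Re z < 1`, of the shifted function `z ↦ ζ(z + iγ)`. The main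
work is the theorem `Pool.Agent.R304.UP.pairs_main` of the library of this repository.
-/

open Filter Topology Complex MeasureTheory

namespace Pool.Agent.Results.MP_103a5c_nt.PairsAndValues

/-- the nontrivial zeros of zeta with ordinate in `(T₁, T₂]` -/
def zeros (T₁ T₂ : ℝ) : Set ℂ :=
  {s : ℂ | riemannZeta s = 0 ∧ 0 < s.re ∧ s.re < 1 ∧ T₁ < s.im ∧ s.im ≤ T₂}

/-- the multiplicity of a zero -/
noncomputable def mult (s : ℂ) : ℕ := analyticOrderNatAt riemannZeta s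

/-- the number of nontrivial zeros with ordinate in `(T₁, T₂]`, counted with multiplicity -/
noncomputable def N (T₁ T₂ : ℝ) : ℕ := ∑ᶠ s ∈ zeros T₁ T₂, mult s

/-- the test function `r(x) = ∫ R(α) cos(2π x α) dα`, for `R` supported in `[-1, 1]` -/
noncomputable def r (R : ℝ → ℝ) (x : ℝ) : ℝ :=
  ∫ α in (-1 : ℝ)..1, R α * Real.cos (2 * Real.pi * x * α)

/-- the sum of `r((γ - γ') log T / 2π) w(γ)` over all ordered pairs of zeros with ordinates
`γ, γ'` in `(T₁, T₂]`, counted with multiplicity, `γ = γ'` included -/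
noncomputable def pairSum (R w : ℝ → ℝ) (T T₁ T₂ : ℝ) : ℝ :=
  ∑ᶠ s ∈ zeros T₁ T₂, ∑ᶠ s' ∈ zeros T₁ T₂, (mult s : ℝ) * (mult s' : ℝ) *
    (r R ((s.im - s'.im) * Real.log T / (2 * Real.pi)) * w s.im)

/-- `R` is continuous, even, vanishes for `|α| ≥ κ`, and `r(x) = O(1/(1+x²))` -/
structure TestFn (R : ℝ → ℝ) (κ : ℝ) : Prop where
  cont : Continuous R
  even : ∀ α, R (-α) = R α
  supp : ∀ α, κ ≤ |α| → R α = 0
  decay : ∃ K : ℝ, ∀ x : ℝ, |r R x| ≤ K / (1 + x ^ 2)

/-- the constant of Montgomery's theorem, `R(0) + ∫ |α| R(α) dα` -/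
noncomputable def mont (R : ℝ → ℝ) : ℝ := R 0 + 2 * ∫ α in (0 : ℝ)..1, α * R α

/-- the shifted function `z ↦ ζ(z + it)` -/
noncomputable def shift (t : ℝ) : ℂ → ℂ := fun z => riemannZeta (z + t * I)

/-- `Φ` is a bounded real functional on the functions `ℂ → ℂ`, uniformly continuous for the
supremum of the absolute value over `K` -/
structure Functional (K : Set ℂ) (Φ : (ℂ → ℂ) → ℝ) : Prop where
  bdd : ∃ B : ℝ, ∀ g, |Φ g| ≤ B
  unif : ∀ ε : ℝ, 0 < ε → ∃ δ : ℝ, 0 < δ ∧ ∀ g h : ℂ → ℂ, (∀ z ∈ K, ‖g z - h z‖ ≤ δ) →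
    |Φ g - Φ h| ≤ ε

lemma zeros_eq (T₁ T₂ : ℝ) : zeros T₁ T₂ = H370.zset riemannZeta T₁ T₂ := by
  ext s
  simp only [zeros, H370.zset, Set.mem_ofPred_eq]
  tauto

lemma N_eq (T₁ T₂ : ℝ) : N T₁ T₂ = H370.NN riemannZeta T₁ T₂ := by
  unfold N H370.NN H370.mult mult
  rw [zeros_eq]

/-- On the Riemann hypothesis: let `K` be a compact subset of the strip `1/2 < Re z < 1` and `Φ` a
bounded functional which is uniformly continuous for the supremum over `K`. The mean value `m` of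
`Φ(ζ(· + it))` over all real `t` exists, and the pairs of zeros, counted with a test function in
Montgomery's range and weighted by `Φ(ζ(· + iγ))`, have the asymptotics of Montgomery's theorem
multiplied by `m`. -/
theorem result (RH : RiemannHypothesis) (K : Set ℂ) (hK : IsCompact K)
    (hKs : ∀ z ∈ K, 1 / 2 < z.re ∧ z.re < 1) (Φ : (ℂ → ℂ) → ℝ) (hΦ : Functional K Φ) :
    ∃ m : ℝ, Tendsto (fun X : ℝ => (∫ t in (0 : ℝ)..X, Φ (shift t)) / X) atTop (𝓝 m) ∧
      ∀ (κ : ℝ) (R : ℝ → ℝ), 0 < κ → κ < 1 → TestFn R κ → ∀ ε : ℝ, 0 < ε →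
        ∃ T₀ : ℝ, ∀ T : ℝ, T₀ ≤ T →
          |pairSum R (fun t => Φ (shift t)) T T (2 * T) - m * mont R * (N T (2 * T) : ℝ)| ≤
            ε * (N T (2 * T) : ℝ) := by
  obtain ⟨B, hB⟩ := hΦ.bdd
  have hF : R304.UP.Fnl K Φ B := ⟨hB, hΦ.unif⟩
  obtain ⟨m, hm⟩ := R304.UP.mean_exists hK hKs hF
  refine ⟨m, hm, fun κ R h0 h1 hR ε hε => ?_⟩
  obtain ⟨T₀, h⟩ := R304.UP.pairs_main RH (R := R) (κ := κ)
    ⟨hR.cont, hR.even, hR.supp, hR.decay⟩ h0 h1 hK hKs hF hm hε
  refine ⟨T₀, fun T hT => ?_⟩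
  have := h T hT
  rw [N_eq]
  exact this

end Pool.Agent.Results.MP_103a5c_nt.PairsAndValues
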