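import Pool.Agent.N804.PV.AllW
import Pool.Agent.N804.PCQ

/-!
# One-sided bounds for Selberg's integral, the Riemann Hypothesis and the pair correlation conjecture

The Riemann Hypothesis and the pair correlation conjecture together are equivalent to an upper
bound of the conjectured size for Selberg's integral `J(X, h) = ∫_0^X (ψ(x + h) - ψ(x) - h)² dx`,
in logarithmic mean over `T^(b-δ) ≤ X ≤ T^b`, `b > 1`, where `h = X/T` and `δ < 1` is one fixed
number.
-/

open Filter Topology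

namespace Pool.Agent.Results.MP_103a5c_nt.SelbergIntegral

/-- multiplicity of `s` as a zero of the Riemann zeta function (order of vanishing at `s`) -/
noncomputable def zmult (s : ℂ) : ℕ := analyticOrderNatAt riemannZeta s

/-- the nontrivial zeros of `ζ` -/
def ZZ : Set ℂ := {s : ℂ | riemannZeta s = 0 ∧ 0 < s.re ∧ s.re < 1}

/-- `N(T; α, β)`: the number of ordered pairs `(γ, γ')` of ordinates in `(0, T]`, counted with
multiplicity, with `2πα / log T ≤ γ - γ' ≤ 2πβ / log T` -/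
noncomputable def N (T α β : ℝ) : ℕ :=
  ∑ᶠ p ∈ {p : ℂ × ℂ | p.1 ∈ ZZ ∧ p.2 ∈ ZZ ∧ 0 < p.1.im ∧ p.1.im ≤ T ∧ 0 < p.2.im ∧ p.2.im ≤ T ∧
    2 * Real.pi * α / Real.log T ≤ p.1.im - p.2.im ∧
    p.1.im - p.2.im ≤ 2 * Real.pi * β / Real.log T}, zmult p.1 * zmult p.2

/-- the constant of the conjecture, `∫_α^β (1 - (sin πu / πu)²) du + δ(α, β)` -/
noncomputable def P (α β : ℝ) : ℝ :=
  (∫ u in α..β, (1 - (Real.sin (Real.pi * u) / (Real.pi * u)) ^ 2)) +
    if α ≤ 0 ∧ 0 ≤ β then 1 else 0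

/-- Selberg's integral `J(X, h) = ∫_0^X (ψ(x + h) - ψ(x) - h)² dx` -/
noncomputable def J (X h : ℝ) : ℝ :=
  ∫ x in (0 : ℝ)..X, (Chebyshev.psi (x + h) - Chebyshev.psi x - h) ^ 2

/-- the ratio of `J(X, h)` and `h X log (X/h)` for `X = T^α`, `h = X/T` -/
noncomputable def Q (T α : ℝ) : ℝ :=
  J (T ^ α) (T ^ α / T) / (T ^ α / T * T ^ α * Real.log (T ^ α / (T ^ α / T)))

/-- Let `0 < δ < 1`. The following are equivalent. (1) The Riemann Hypothesis and the pair
correlation conjecture. (2) For almost every (3) for every `b > 1`, with `b' = max(1, b - δ)`: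
`limsup ∫_{b'}^b Q(T, α) dα ≤ b - b'` as `T → ∞`. (4) For all `1 ≤ u < v`:
`∫_u^v Q(T, α) dα → v - u`. -/
theorem result {δ : ℝ} (h0 : 0 < δ) (h1 : δ < 1) : List.TFAE [
    RiemannHypothesis ∧ ∀ α β : ℝ, α < β → Asymptotics.IsEquivalent atTop
      (fun T : ℝ => (N T α β : ℝ)) (fun T : ℝ => P α β * (T / (2 * Real.pi) * Real.log T)),
    ∀ᵐ b : ℝ, 1 < b → ∀ ε : ℝ, 0 < ε → ∀ᶠ T : ℝ in atTop,
      ∫ α in (max 1 (b - δ))..b, Q T α ≤ b - max 1 (b - δ) + ε,
    ∀ b : ℝ, 1 < b → ∀ ε : ℝ, 0 < ε → ∀ᶠ T : ℝ in atTop,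
      ∫ α in (max 1 (b - δ))..b, Q T α ≤ b - max 1 (b - δ) + ε,
    ∀ u v : ℝ, 1 ≤ u → u < v →
      Tendsto (fun T : ℝ => ∫ α in u..v, Q T α) atTop (𝓝 (v - u))] := by
  have hpi := Real.pi_pos
  have hpc : (∀ α β : ℝ, α < β → Asymptotics.IsEquivalent atTop (fun T : ℝ => (N T α β : ℝ))
      (fun T : ℝ => P α β * (T / (2 * Real.pi) * Real.log T))) ↔
      ∀ a : ℝ, 0 < a → Tendsto (fun T => N804.CF T a) atTop (𝓝 (N804.PP a)) := by
    rw [← N804.pc_iff le_rfl]
    refine forall_congr' fun α => forall_congr' fun β => forall_congr' fun _ => ?_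
    have e1 : (fun T : ℝ => (N T α β : ℝ)) =ᶠ[atTop] fun T => N804.NW T α β := by
      filter_upwards [eventually_gt_atTop 1] with T hT
      exact N804.npair_eq hT α β
    have e2 : (fun T : ℝ => P α β * (T / (2 * Real.pi) * Real.log T)) =
        fun T => N804.PV' α β * N804.XX T := by
      funext T
      have e3 : P α β = N804.PV' α β := rfl
      rw [e3]
      unfold N804.XX
      ring
    rw [e2]
    exact ⟨fun h => h.congr_left e1, fun h => h.congr_left e1.symm⟩
  have hQ : ∀ T : ℝ, 1 < T → ∀ α : ℝ, Q T α = N804.PV.PSI 0 T α := by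
    intro T hT α
    have hT0 : 0 < T := by linarith
    have hX : 0 < T ^ α := Real.rpow_pos_of_pos hT0 α
    have hL := Real.log_pos hT
    have e2 : T ^ α / (T ^ α / T) = T := by field_simp
    unfold Q N804.PV.PSI
    have e3 : N804.PV.JV 0 T (T ^ α) = J (T ^ α) (T ^ α / T) := by
      unfold N804.PV.JV N804.PV.fE J
      rw [zero_mul, sub_zero]
    rw [e2, e3]
    field_simp
  have hW : ∀ T : ℝ, 2 ≤ T → ∀ u v : ℝ, 1 ≤ u → u ≤ v →
      ∫ α in u..v, Q T α = N804.PV.WV 0 T u v := by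
    intro T hT u v hu huv
    rw [(N804.PV.w1 0 (by norm_num) (by norm_num) T hT).2.1 u v hu huv]
    exact intervalIntegral.integral_congr fun α _ => hQ T (by linarith) α
  obtain ⟨m1, m2⟩ := N804.PV.pw_main (show (0 : ℝ) ≤ 0 by norm_num) (by norm_num) h0 h1
  rw [← hpc] at m1 m2
  have hev := eventually_ge_atTop (2 : ℝ)
  tfae_have 3 → 2 := fun h => MeasureTheory.ae_of_all _ h
  tfae_have 2 → 1 := by
    intro h
    refine m1 ?_
    filter_upwards [h] with b hb hb1 ε hε
    filter_upwards [hb hb1 ε hε, hev] with T hT hT2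
    rwa [hW T hT2 _ _ (le_max_left _ _) (max_le hb1.le (by linarith))] at hT
  tfae_have 1 → 4 := by
    intro h u v hu huv
    refine (m2 h u v hu huv).congr' ?_
    filter_upwards [hev] with T hT2
    exact (hW T hT2 u v hu huv.le).symm
  tfae_have 4 → 3 := by
    intro h b hb ε hε
    have h2 := h (max 1 (b - δ)) b (le_max_left _ _) (max_lt hb (by linarith))
    filter_upwards [(tendsto_order.1 h2).2 (b - max 1 (b - δ) + ε) (by linarith)] with T hT
    exact hT.le
  tfae_finish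

end Pool.Agent.Results.MP_103a5c_nt.SelbergIntegral
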