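import Pool.Agent.N805.VP.KJ

set_option autoImplicit false

/-!
# MP_103a5c_nt: the pair correlation conjecture and the zeros in pairs of short intervals

Assume the Riemann hypothesis. For a set `W` let `Cover T W` be the proportion of the `t` for which
`t + (2π / log T) W` contains an ordinate `≤ T`. If the zeros behave like GUE points then, for
`W = [0, h) ∪ [u, u + h)`, `h ≤ u`, `Cover T W` is `2h - h² (1 - (sin πu / πu)²) + O(h³)` (one minus the
truncated Fredholm series).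

* The pair correlation conjecture Q1 holds (along any filter of heights) if and only if
  `liminf Cover T W ≥ 2h - h² (1 - (sin πu / πu)²) - O(h³)` for these sets, locally uniformly in `u`.
  So only an INEQUALITY, to second order, for the event that one of two short intervals is hit, is
  needed.
* For every even `K ≥ 2` the correlations of at most `K` zeros are those of GUE if and only if
  `liminf Cover T W ≥ -∑_{1 ≤ k ≤ K} (-1)^k / k! ∫_{W^k} det (s (x_i - x_j))` for all finite unions of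
  intervals, and also if and only if this holds up to an error `O(h^(K+1))` for the unions of at most
  `K` intervals of length `h`.
-/

namespace Pool.Agent.Results.MP_103a5c_nt.ShortIntervals

open Filter MeasureTheory

/-- multiplicity of `s` as a zero of the Riemann zeta function (order of vanishing at `s`) -/
noncomputable def zmult (s : ℂ) : ℕ := analyticOrderNatAt riemannZeta s

/-- the number of nontrivial zeros of `ζ` with ordinate in `(0, t]`, with multiplicity -/
noncomputable def NZ (t : ℝ) : ℕ :=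
  ∑ᶠ s ∈ {s : ℂ | riemannZeta s = 0 ∧ 0 < s.re ∧ s.re < 1 ∧ 0 < s.im ∧ s.im ≤ t}, zmult s

/-- for `n ≥ 1`: the `n`-th positive ordinate `γ n` of a nontrivial zero of `ζ`, the ordinates being
listed in nondecreasing order and repeated according to multiplicity -/
noncomputable def γ (n : ℕ) : ℝ := sInf {t : ℝ | n ≤ NZ t}

/-- `s(u) = sin(π u) / (π u)`, `s(0) = 1` -/
noncomputable def s (u : ℝ) : ℝ := Real.sinc (Real.pi * u)

/-- `N(T; α, β)`: the number of ordered pairs of ordinates in `(0, T]` (with multiplicity, including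
the diagonal pairs) with `2πα / log T ≤ γ - γ' ≤ 2πβ / log T` -/
noncomputable def N (T α β : ℝ) : ℕ :=
  {p : ℕ × ℕ | (1 ≤ p.1 ∧ γ p.1 ≤ T) ∧ (1 ≤ p.2 ∧ γ p.2 ≤ T) ∧
    2 * Real.pi * α / Real.log T ≤ γ p.1 - γ p.2 ∧ γ p.1 - γ p.2 ≤ 2 * Real.pi * β / Real.log T}.ncard

/-- the constant of the conjecture, `∫_α^β (1 - (sin πu / πu)²) du + δ(α, β)` (it is positive) -/
noncomputable def P (α β : ℝ) : ℝ :=
  (∫ u in α..β, (1 - s u ^ 2)) + if α ≤ 0 ∧ 0 ≤ β then 1 else 0

/-- `(T / 2π) log T` -/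
noncomputable def X (T : ℝ) : ℝ := T / (2 * Real.pi) * Real.log T

/-- the conjecture Q1, for `T` tending to infinity along the filter `l` -/
def PairCorrelation (l : Filter ℝ) : Prop := ∀ α β : ℝ, α < β →
  Tendsto (fun T => (N T α β : ℝ) / X T) l (nhds (P α β))

/-- the proportion of the `t` (in units of `T`) such that `t + (2π / log T) W` contains an ordinate
`≤ T` -/
noncomputable def Cover (T : ℝ) (W : Set ℝ) : ℝ :=
  1 / T * volume.real {t : ℝ | ∃ n : ℕ, 1 ≤ n ∧ γ n ≤ T ∧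
    (γ n - t) * (Real.log T / (2 * Real.pi)) ∈ W}

/-- the lower bound for pairs of intervals of length `h ≤ 1` at distance `u ≤ B`, with an error
`C h³` -/
def PairBound (l : Filter ℝ) (B C : ℝ) : Prop := ∀ h u : ℝ, 0 < h → h ≤ 1 → h ≤ u → u ≤ B →
  ∀ ε : ℝ, 0 < ε → ∀ᶠ T in l,
    2 * h - h ^ 2 * (1 - s u ^ 2) - C * h ^ 3 - ε ≤ Cover T (Set.Ico 0 h ∪ Set.Ico u (u + h))

/-- the number of tuples of distinct indices (one index `j none`, and one index `j (some i)` for each
`i`) with ordinates `≤ T` such that `(γ_{j (some i)} - γ_{j none}) log T / 2π ∈ [x_i, y_i]` for all `i` -/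
noncomputable def Nt {ι : Type} (T : ℝ) (x y : ι → ℝ) : ℕ :=
  {j : Option ι → ℕ | Function.Injective j ∧ (∀ i, 1 ≤ j i ∧ γ (j i) ≤ T) ∧
    ∀ i : ι, (γ (j (some i)) - γ (j none)) * (Real.log T / (2 * Real.pi)) ∈
      Set.Icc (x i) (y i)}.ncard

/-- the `k + 1` points `0` and `u_i`, `i < k` -/
def pt {k : ℕ} (u : Fin k → ℝ) (o : Option (Fin k)) : ℝ := o.elim 0 u

/-- `∫ det (s (u_i - u_j)) du` over the box `∏ [x_i, y_i]`, `u_0 = 0` -/
noncomputable def I {k : ℕ} (x y : Fin k → ℝ) : ℝ :=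
  ∫ u in Set.Icc x y, Matrix.det (Matrix.of fun i j : Option (Fin k) => s (pt u i - pt u j))

/-- the correlations of at most `K` zeros are those of the sine kernel, along `l` -/
def Corr (l : Filter ℝ) (K : ℕ) : Prop := ∀ k : ℕ, 1 ≤ k → k < K → ∀ x y : Fin k → ℝ,
  (∀ i, x i < y i) → Tendsto (fun T => (Nt T x y : ℝ) / X T) l (nhds (I x y))

/-- the Fredholm series of `det (1 - K_W)` up to the term of order `K` -/
noncomputable def Trunc (K : ℕ) (W : Set ℝ) : ℝ :=
  ∑ k ∈ Finset.range (K + 1), (-1) ^ k / (k.factorial : ℝ) *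
    ∫ q in Set.pi Set.univ (fun _ : Fin k => W),
      Matrix.det (Matrix.of fun i j : Fin k => s (q i - q j))

/-- lower bounds for all finite unions of intervals -/
def AllSets (l : Filter ℝ) (K : ℕ) : Prop := ∀ (n : ℕ) (a b : Fin n → ℝ), ∀ ε : ℝ, 0 < ε →
  ∀ᶠ T in l, 1 - Trunc K (⋃ i, Set.Ico (a i) (b i)) - ε ≤ Cover T (⋃ i, Set.Ico (a i) (b i))

/-- lower bounds, with an error `C h ^ (K + 1)`, for the unions of at most `K` intervals of length
`h ≤ 1`, locally uniformly -/
def ShortSets (l : Filter ℝ) (K : ℕ) : Prop := ∀ B : ℝ, ∃ C : ℝ, ∀ h : ℝ, 0 < h → h ≤ 1 →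
  ∀ n : ℕ, n ≤ K → ∀ a : Fin n → ℝ, (∀ i, |a i| ≤ B) → ∀ ε : ℝ, 0 < ε → ∀ᶠ T in l,
    1 - Trunc K (⋃ i, Set.Ico (a i) (a i + h)) - C * h ^ (K + 1) - ε ≤
      Cover T (⋃ i, Set.Ico (a i) (a i + h))

theorem result (hRH : RiemannHypothesis) (l : Filter ℝ) (hl : l ≤ atTop) :
    ((PairCorrelation l ↔ ∀ B : ℝ, ∃ C : ℝ, PairBound l B C) ∧
      (PairCorrelation l → ∀ B : ℝ, PairBound l B 12)) ∧
    ((PairCorrelation l ↔ Corr l 2) ∧
      ∀ K : ℕ, Even K → (Corr l K ↔ AllSets l K) ∧ (Corr l K ↔ ShortSets l K)) := by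
  have hpt : ∀ {k : ℕ} (u : Fin k → ℝ) (o : Option (Fin k)), pt u o = Pool.Agent.N805.DT.pt 0 u o := by
    intro k u o
    unfold pt Pool.Agent.N805.DT.pt
    cases o <;> simp
  have hI : ∀ {k : ℕ} (x y : Fin k → ℝ), I x y = Pool.Agent.N805.OS.I x y := by
    intro k x y
    unfold I Pool.Agent.N805.OS.I
    simp_rw [hpt]
    rfl
  have hF : ∀ K, Corr l K ↔ ∀ k : ℕ, 1 ≤ k → k < K → Pool.Agent.N805.OS.Full l k := by
    intro K
    unfold Corr Pool.Agent.N805.OS.Full
    simp_rw [hI]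
    rfl
  have hPC : PairCorrelation l ↔ Pool.Agent.N805.OS.Full l 1 :=
    (Pool.Agent.N805.VP.pc_iff hl).symm
  obtain ⟨h1, h2⟩ := Pool.Agent.N805.VP.mainPair hRH hl
  have h12 : PairCorrelation l → ∀ B : ℝ, PairBound l B 12 :=
    fun h B t u ht ht1 htu _ => h1 (hPC.1 h) t u ht ht1 htu
  refine ⟨⟨⟨fun h B => ⟨12, h12 h B⟩, fun h => hPC.2 (h2 h)⟩, h12⟩, ?_, fun K hK => ?_⟩
  · rw [hPC, hF]
    constructor
    · intro h k hk1 hk2
      have : k = 1 := by omega
      rw [this]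
      exact h
    · intro h
      exact h 1 le_rfl (by norm_num)
  · obtain ⟨g1, g2, g3⟩ := Pool.Agent.N805.VP.mainK hRH hl K
    rw [hF]
    exact ⟨⟨g1 hK, fun h => g3 (g2 h)⟩, ⟨fun h => g2 (g1 hK h), g3⟩⟩

end Pool.Agent.Results.MP_103a5c_nt.ShortIntervals
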